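import Pool.Agent.Q113.XK.Stm

/-!
# Project XK (helper113), job K2: pairs of weight at least one (helper149)
-/

set_option autoImplicit false

namespace Pool.Agent.Q149.XK

open Finset MeasureTheory Pool.Agent.Q113.XK

/-- one point -/
theorem int_point (y : ℝ) (hy : 0 ≤ y) :
    ∫ t in Set.Ioo (0 : ℝ) (1 / 2), ((Set.Iic y).indicator (fun _ => (1 / 2 : ℝ)) t +
      (Set.Ioi (1 - y)).indicator (fun _ => (1 / 2 : ℝ)) t) ≤ y / 2 := by
  have hfin : volume (Set.Ioo (0 : ℝ) (1 / 2)) ≠ ⊤ := by rw [Real.volume_Ioo]; exact ENNReal.ofReal_ne_top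
  have hi : IntegrableOn (fun _ : ℝ => (1 / 2 : ℝ)) (Set.Ioo (0 : ℝ) (1 / 2)) :=
    integrableOn_const hfin
  rw [integral_add (hi.indicator measurableSet_Iic) (hi.indicator measurableSet_Ioi),
    setIntegral_indicator measurableSet_Iic, setIntegral_indicator measurableSet_Ioi,
    setIntegral_const, setIntegral_const, smul_eq_mul, smul_eq_mul]
  have h1 : volume.real (Set.Ioo (0 : ℝ) (1 / 2) ∩ Set.Iic y) ≤ min y (1 / 2) := by
    have hsub : Set.Ioo (0 : ℝ) (1 / 2) ∩ Set.Iic y ⊆ Set.Ioc 0 (min y (1 / 2)) := by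
      rintro t ⟨⟨h1, h2⟩, h3⟩
      exact ⟨h1, le_min h3 h2.le⟩
    refine (measureReal_mono hsub (by rw [Real.volume_Ioc]; exact ENNReal.ofReal_ne_top)).trans ?_
    rw [Real.volume_real_Ioc]
    have : 0 ≤ min y (1 / 2) := le_min hy (by norm_num)
    rw [sub_zero, max_eq_left this]
  have h2 : volume.real (Set.Ioo (0 : ℝ) (1 / 2) ∩ Set.Ioi (1 - y)) ≤
      max (1 / 2 - max 0 (1 - y)) 0 := by
    have hsub : Set.Ioo (0 : ℝ) (1 / 2) ∩ Set.Ioi (1 - y) ⊆ Set.Ioo (max 0 (1 - y)) (1 / 2) := by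
      rintro t ⟨⟨h1, h2⟩, h3⟩
      exact ⟨max_lt h1 h3, h2⟩
    refine (measureReal_mono hsub (by rw [Real.volume_Ioo]; exact ENNReal.ofReal_ne_top)).trans ?_
    rw [Real.volume_real_Ioo]
  have h3 : min y (1 / 2) + max (1 / 2 - max 0 (1 - y)) 0 ≤ y := by
    rcases le_total y (1 / 2) with h | h
    · rw [min_eq_left h, max_eq_right, add_zero]
      have := le_max_right 0 (1 - y)
      linarith
    · rw [min_eq_right h]
      have h4 := le_max_right 0 (1 - y)
      have h5 : max (1 / 2 - max 0 (1 - y)) 0 ≤ y - 1 / 2 := max_le (by linarith) (by linarith)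
      linarith
  linarith

/-- the half-integral cover -/
theorem half_cover {n : ℕ} (y : Fin n → ℝ) (hy : ∀ v, 0 ≤ y v) : ∃ t : ℝ, 0 < t ∧ t < 1 / 2 ∧
    ∑ i, ((Set.Iic (y i)).indicator (fun _ => (1 / 2 : ℝ)) t +
      (Set.Ioi (1 - y i)).indicator (fun _ => (1 / 2 : ℝ)) t) ≤ ∑ i, y i := by
  have hfin : volume (Set.Ioo (0 : ℝ) (1 / 2)) ≠ ⊤ := by rw [Real.volume_Ioo]; exact ENNReal.ofReal_ne_top
  have hne : volume (Set.Ioo (0 : ℝ) (1 / 2)) ≠ 0 := by
    rw [Real.volume_Ioo]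
    norm_num
  have hi : IntegrableOn (fun _ : ℝ => (1 / 2 : ℝ)) (Set.Ioo (0 : ℝ) (1 / 2)) :=
    integrableOn_const hfin
  have hii : ∀ i ∈ (univ : Finset (Fin n)), IntegrableOn (fun t => (Set.Iic (y i)).indicator
      (fun _ => (1 / 2 : ℝ)) t + (Set.Ioi (1 - y i)).indicator (fun _ => (1 / 2 : ℝ)) t)
      (Set.Ioo (0 : ℝ) (1 / 2)) := fun i _ =>
    (hi.indicator measurableSet_Iic).add (hi.indicator measurableSet_Ioi)
  obtain ⟨t, ht, hle⟩ := exists_le_setAverage hne hfin (integrable_finsetSum _ hii)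
  refine ⟨t, ht.1, ht.2, hle.trans ?_⟩
  rw [setAverage_eq, integral_finsetSum _ hii, Real.volume_real_Ioo, smul_eq_mul]
  have h1 : ∑ i, ∫ t in Set.Ioo (0 : ℝ) (1 / 2), ((Set.Iic (y i)).indicator (fun _ => (1 / 2 : ℝ)) t +
      (Set.Ioi (1 - y i)).indicator (fun _ => (1 / 2 : ℝ)) t) ≤ ∑ i, y i / 2 :=
    Finset.sum_le_sum fun i _ => int_point (y i) (hy i)
  rw [← Finset.sum_div] at h1
  norm_num at h1 ⊢
  linarith

/-- the number of pairs meeting a set -/
theorem arith (n m s a b : ℕ) (hab : 2 * a + b ≤ m) (hm1 : 2 * s ≤ m) (hm2 : m ≤ 2 * s + 1)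
    (hmn : m < n) :
    n.choose 2 - (n - a).choose 2 + b.choose 2 ≤ max (n.choose 2 - (n - s).choose 2) (m.choose 2) := by
  have ha : a ≤ s := by omega
  have hb : b.choose 2 ≤ (m - 2 * a).choose 2 := Nat.choose_le_choose 2 (by omega)
  have h1 : (n - a).choose 2 ≤ n.choose 2 := Nat.choose_le_choose 2 (by omega)
  have h2 : (n - s).choose 2 ≤ n.choose 2 := Nat.choose_le_choose 2 (by omega)
  have c1 : ((n.choose 2 : ℕ) : ℝ) = n * (n - 1) / 2 := Nat.cast_choose_two ℝ n
  have c2 : (((n - a).choose 2 : ℕ) : ℝ) = (n - a) * (n - a - 1) / 2 := by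
    rw [Nat.cast_choose_two, Nat.cast_sub (by omega)]
  have c3 : (((n - s).choose 2 : ℕ) : ℝ) = (n - s) * (n - s - 1) / 2 := by
    rw [Nat.cast_choose_two, Nat.cast_sub (by omega)]
  have c4 : (((m - 2 * a).choose 2 : ℕ) : ℝ) = (m - 2 * a) * (m - 2 * a - 1) / 2 := by
    rw [Nat.cast_choose_two, Nat.cast_sub (by omega)]
    push_cast
    ring
  have c5 : ((m.choose 2 : ℕ) : ℝ) = m * (m - 1) / 2 := Nat.cast_choose_two ℝ m
  have hbR : ((b.choose 2 : ℕ) : ℝ) ≤ ((m - 2 * a).choose 2 : ℕ) := by exact_mod_cast hb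
  have haR : (a : ℝ) ≤ s := by exact_mod_cast ha
  have ha0 : (0 : ℝ) ≤ a := Nat.cast_nonneg a
  rw [le_max_iff]
  rcases le_or_gt ((n : ℝ) - 2 * m + 1 / 2 + 3 / 2 * a) 0 with h | h
  · right
    have h3 : ((n.choose 2 - (n - a).choose 2 + b.choose 2 : ℕ) : ℝ) ≤ (m.choose 2 : ℕ) := by
      rw [Nat.cast_add, Nat.cast_sub h1, c1, c2, c5]
      rw [c4] at hbR
      nlinarith [mul_nonneg ha0 (neg_nonneg.mpr h)]
    exact_mod_cast h3
  · left
    have h3 : ((n.choose 2 - (n - a).choose 2 + b.choose 2 : ℕ) : ℝ) ≤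
        (n.choose 2 - (n - s).choose 2 : ℕ) := by
      rw [Nat.cast_add, Nat.cast_sub h1, Nat.cast_sub h2, c1, c2, c3]
      rw [c4] at hbR
      have hs1 : (2 * s : ℝ) ≤ m := by exact_mod_cast hm1
      have hs2 : (m : ℝ) ≤ 2 * s + 1 := by exact_mod_cast hm2
      -- `(m - 2 s) (m - 2 s - 1) = 0`
      have hz : ((m : ℝ) - 2 * s) * (m - 2 * s - 1) = 0 := by
        rcases Nat.lt_or_ge m (2 * s + 1) with h4 | h4
        · have : m = 2 * s := by omega
          rw [this]
          push_cast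
          ring
        · have : m = 2 * s + 1 := by omega
          rw [this]
          push_cast
          ring
      have h5 : 0 ≤ ((s : ℝ) - a) * ((n : ℝ) - 2 * m + 1 / 2 + 3 / 2 * a + 3 / 2 * s) := by
        refine mul_nonneg (by linarith) ?_
        have : (0 : ℝ) ≤ s := Nat.cast_nonneg s
        linarith
      nlinarith [h5, hz, hbR]
    exact_mod_cast h3

/-- **job K2** -/
theorem t_K2 : ∀ (n : ℕ) (h : ℝ), 0 ≤ h → (2 : ℝ) * h < n → KRB 2 n h := by
  classical
  intro n h hh0 hhn y hy hsum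
  obtain ⟨t, ht0, ht1, hle⟩ := half_cover y hy
  set A : Finset (Fin n) := univ.filter (fun i => 1 - t < y i) with hA
  set B : Finset (Fin n) := univ.filter (fun i => t ≤ y i ∧ ¬ (1 - t < y i)) with hB
  have hcnt : ∑ i, ((Set.Iic (y i)).indicator (fun _ => (1 / 2 : ℝ)) t +
      (Set.Ioi (1 - y i)).indicator (fun _ => (1 / 2 : ℝ)) t) = A.card + B.card / 2 := by
    have e : ∀ i, (Set.Iic (y i)).indicator (fun _ => (1 / 2 : ℝ)) t +
        (Set.Ioi (1 - y i)).indicator (fun _ => (1 / 2 : ℝ)) t =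
        (if 1 - t < y i then 1 else 0) + (if t ≤ y i ∧ ¬ (1 - t < y i) then 1 else 0) * (1 / 2) := by
      intro i
      by_cases h1 : 1 - t < y i
      · have h2 : t ≤ y i := by linarith
        have h3 : t ∈ Set.Ioi (1 - y i) := by show 1 - y i < t; linarith
        rw [Set.indicator_of_mem (show t ∈ Set.Iic (y i) from h2), Set.indicator_of_mem h3,
          if_pos h1, if_neg (fun h4 => h4.2 h1)]
        norm_num
      · have h3 : t ∉ Set.Ioi (1 - y i) := fun h4 => h1 (by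
          have : 1 - y i < t := h4
          linarith)
        rw [Set.indicator_of_notMem h3, if_neg h1]
        by_cases h2 : t ≤ y i
        · rw [Set.indicator_of_mem (show t ∈ Set.Iic (y i) from h2), if_pos ⟨h2, h1⟩]
          norm_num
        · rw [Set.indicator_of_notMem (show t ∉ Set.Iic (y i) from fun h4 => h2 h4),
            if_neg (fun h4 => h2 h4.1)]
          norm_num
    rw [Finset.sum_congr rfl fun i _ => e i, Finset.sum_add_distrib, ← Finset.sum_mul,
      Finset.sum_boole, Finset.sum_boole]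
    ring
  rw [hcnt, hsum] at hle
  -- the number of pairs
  have hLF : LF 2 y ⊆ ((univ : Finset (Fin n)).powersetCard 2 \ (univ \ A).powersetCard 2) ∪
      B.powersetCard 2 := by
    intro e he
    unfold LF at he
    rw [Finset.mem_filter] at he
    obtain ⟨he1, he2⟩ := he
    obtain ⟨-, hcard⟩ := Finset.mem_powersetCard.mp he1
    obtain ⟨u, v, huv, rfl⟩ := Finset.card_eq_two.mp hcard
    rw [Finset.sum_pair huv] at he2
    rw [Finset.mem_union, Finset.mem_sdiff]
    by_cases hd : ({u, v} : Finset (Fin n)) ∈ (univ \ A).powersetCard 2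
    · right
      rw [Finset.mem_powersetCard] at hd ⊢
      refine ⟨?_, hcard⟩
      have hu : u ∉ A := (Finset.mem_sdiff.mp (hd.1 (by simp))).2
      have hv : v ∉ A := (Finset.mem_sdiff.mp (hd.1 (by simp))).2
      rw [hA, Finset.mem_filter] at hu hv
      have hu' : ¬ (1 - t < y u) := fun h4 => hu ⟨Finset.mem_univ _, h4⟩
      have hv' : ¬ (1 - t < y v) := fun h4 => hv ⟨Finset.mem_univ _, h4⟩
      intro w hw
      rw [Finset.mem_insert, Finset.mem_singleton] at hw
      rw [hB, Finset.mem_filter]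
      rcases hw with rfl | rfl
      · exact ⟨Finset.mem_univ _, by linarith, hu'⟩
      · exact ⟨Finset.mem_univ _, by linarith, hv'⟩
    · left
      exact ⟨he1, hd⟩
  have hcard : (LF 2 y).card ≤ n.choose 2 - (n - A.card).choose 2 + B.card.choose 2 := by
    refine (Finset.card_le_card hLF).trans ((Finset.card_union_le _ _).trans ?_)
    rw [Finset.card_sdiff_of_subset (Finset.powersetCard_mono (Finset.subset_univ _)),
      Finset.card_powersetCard, Finset.card_powersetCard, Finset.card_powersetCard,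
      Finset.card_univ_sdiff, Finset.card_univ, Fintype.card_fin]
  refine hcard.trans ?_
  have e2 : ((2 : ℕ) : ℝ) * h = 2 * h := by norm_num
  rw [e2]
  refine arith n ⌊2 * h⌋₊ ⌊h⌋₊ A.card B.card ?_ ?_ ?_ ?_
  · rw [Nat.le_floor_iff (by linarith)]
    push_cast
    linarith
  · rw [Nat.le_floor_iff (by linarith)]
    push_cast
    have := Nat.floor_le hh0
    linarith
  · have h1 := Nat.lt_floor_add_one h
    have h2 : (⌊2 * h⌋₊ : ℝ) ≤ 2 * h := Nat.floor_le (by linarith)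
    have h3 : (⌊2 * h⌋₊ : ℝ) < ((2 * ⌊h⌋₊ + 2 : ℕ) : ℝ) := by
      push_cast
      linarith
    have h4 : ⌊2 * h⌋₊ < 2 * ⌊h⌋₊ + 2 := by exact_mod_cast h3
    omega
  · have h2 : (⌊2 * h⌋₊ : ℝ) ≤ 2 * h := Nat.floor_le (by linarith)
    have h3 : (⌊2 * h⌋₊ : ℝ) < n := by linarith
    exact_mod_cast h3

end Pool.Agent.Q149.XK
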